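import Pool.Agent.Helper61.Tri.Goals

set_option autoImplicit false

namespace Pool.Agent.Helper25.Tri

open Pool.Agent.Helper61.Tri

theorem interleave : Interleave := by
  intro V G t X W A B S hadj hX hW hA hB h1 h2 hS1 hS2
  have par : ∀ i : ℕ, (∃ j, i = 2 * j) ∨ (∃ j, i = 2 * j + 1) := fun i => by
    rcases Nat.even_or_odd' i with ⟨j, h | h⟩
    · exact Or.inl ⟨j, h⟩
    · exact Or.inr ⟨j, h⟩
  set c : ℕ → V := fun i => if i % 2 = 0 then X (i / 2) else W (i / 2) with hc
  set a : ℕ → V := fun i => if i % 2 = 0 then A (i / 2) else B (i / 2) with ha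
  have c0 : ∀ j, c (2 * j) = X j := fun j => by
    simp only [hc]
    rw [if_pos (by omega), show 2 * j / 2 = j by omega]
  have c1 : ∀ j, c (2 * j + 1) = W j := fun j => by
    simp only [hc]
    rw [if_neg (by omega), show (2 * j + 1) / 2 = j by omega]
  have c2 : ∀ j, c (2 * j + 1 + 1) = X (j + 1) := fun j => by
    rw [show 2 * j + 1 + 1 = 2 * (j + 1) by ring, c0]
  have a0 : ∀ j, a (2 * j) = A j := fun j => by
    simp only [ha]
    rw [if_pos (by omega), show 2 * j / 2 = j by omega]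
  have a1 : ∀ j, a (2 * j + 1) = B j := fun j => by
    simp only [ha]
    rw [if_neg (by omega), show (2 * j + 1) / 2 = j by omega]
  refine ⟨c, a, ⟨?_, ?_, ?_, ?_⟩, ?_, ?_, ?_, ?_⟩
  · intro i hi
    rcases par i with ⟨j, rfl | rfl⟩ | ⟨j, rfl | rfl⟩
    · obtain ⟨g1, g2, g3, g4, g5, g6⟩ := hadj j (by omega)
      rw [c0, c1, a0]
      exact ⟨g1, g2, g3⟩
    · obtain ⟨g1, g2, g3, g4, g5, g6⟩ := hadj j (by omega)
      rw [c1, c2, a1]
      exact ⟨g4, g5, g6⟩
  · intro i hi i' hi' h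
    rcases par i with ⟨j, rfl | rfl⟩ | ⟨j, rfl | rfl⟩ <;>
    rcases par i' with ⟨j', rfl | rfl⟩ | ⟨j', rfl | rfl⟩
    · rw [c0, c0] at h
      rw [hX j (by omega) j' (by omega) h]
    · rw [c0, c1] at h
      exact absurd h (h1 j (by omega) j' (by omega)).1
    · rw [c1, c0] at h
      exact absurd h.symm (h1 j' (by omega) j (by omega)).1
    · rw [c1, c1] at h
      rw [hW j (by omega) j' (by omega) h]
  · intro i hi i' hi' h
    rcases par i with ⟨j, rfl | rfl⟩ | ⟨j, rfl | rfl⟩ <;>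
    rcases par i' with ⟨j', rfl | rfl⟩ | ⟨j', rfl | rfl⟩
    · rw [a0, a0] at h
      rw [hA j (by omega) j' (by omega) h]
    · rw [a0, a1] at h
      exact absurd h (h2 j (by omega) j' (by omega)).2.2
    · rw [a1, a0] at h
      exact absurd h.symm (h2 j' (by omega) j (by omega)).2.2
    · rw [a1, a1] at h
      rw [hB j (by omega) j' (by omega) h]
  · intro i hi i' hi'
    rcases par i with ⟨j, rfl | rfl⟩ | ⟨j, rfl | rfl⟩ <;>
    rcases par i' with ⟨j', rfl | rfl⟩ | ⟨j', rfl | rfl⟩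
    · rw [c0, a0]
      exact (h1 j (by omega) j' (by omega)).2.1
    · rw [c0, a1]
      exact (h1 j (by omega) j' (by omega)).2.2
    · rw [c1, a0]
      exact (h2 j (by omega) j' (by omega)).1
    · rw [c1, a1]
      exact (h2 j (by omega) j' (by omega)).2.1
  · exact c0 0
  · exact c0 t
  · intro i hi
    rcases par i with ⟨j, rfl | rfl⟩ | ⟨j, rfl | rfl⟩
    · rw [c0]; exact hS1 j (by omega)
    · rw [c1]; exact (hS2 j (by omega)).1
  · intro i hi
    rcases par i with ⟨j, rfl | rfl⟩ | ⟨j, rfl | rfl⟩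
    · rw [a0]; exact (hS2 j (by omega)).2.1
    · rw [a1]; exact (hS2 j (by omega)).2.2

end Pool.Agent.Helper25.Tri
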